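import Pool.Agent.MP_3d716e_an.H63.Spec

/-! The Faber-Krahn inequality applied to a regularisation of `|f| * y (zf R f)`. -/

set_option autoImplicit false
open MeasureTheory Set Real Filter Topology
open Pool.Agent.MP_3d716e_an.H83 Pool.Agent.MP_3d716e_an.H63

namespace Pool.Agent.MP_3d716e_an.H71

noncomputable def ww (d u : ℝ) : ℝ := √(u ^ 2 + d ^ 2)

noncomputable def zz (R d u G : ℝ) : ℝ := R ^ 2 * G * (u ^ 2 + d ^ 2)⁻¹

/-- a directional derivative of the regularised function -/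
noncomputable def EE (R : ℝ) (y : ℝ → ℝ) (d u G e h : ℝ) : ℝ :=
  (y (zz R d u G) - 2 * zz R d u G * deriv y (zz R d u G)) * (u / ww d u) * e +
    2 * R ^ 2 * deriv y (zz R d u G) / ww d u * h

noncomputable def Yd (R : ℝ) (y : ℝ → ℝ) (f : P → ℝ) (d : ℝ) (p : P) : ℝ :=
  ww d (f p) * y (zz R d (f p) (g2 f p)) - d * y 0

noncomputable def Ph (R l : ℝ) (y : ℝ → ℝ) (f : P → ℝ) (d : ℝ) (p : P) : ℝ :=
  R ^ 2 * (EE R y d (f p) (g2 f p) (dx f p) (dx (dx f) p * dx f p + dy (dx f) p * dy f p) ^ 2 +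
    EE R y d (f p) (g2 f p) (dy f p) (dy (dx f) p * dx f p + dy (dy f) p * dy f p) ^ 2) -
    l * max (Yd R y f d p) 0 ^ 2

lemma zz_nonneg (R d u : ℝ) {G : ℝ} (hG : 0 ≤ G) : 0 ≤ zz R d u G := by
  unfold zz; positivity

lemma ww_sq (d u : ℝ) : ww d u ^ 2 = u ^ 2 + d ^ 2 := sq_sqrt (by positivity)

lemma ww_pos {d u : ℝ} (h : 0 < u ^ 2 + d ^ 2) : 0 < ww d u := sqrt_pos.mpr h

lemma cd_Yd {R : ℝ} {y : ℝ → ℝ} (cy : ∀ z, 0 ≤ z → ContDiffAt ℝ 1 y z) {f : P → ℝ}
    (hf : ContDiff ℝ 3 f) {d : ℝ} (hd : 0 < d) : ContDiff ℝ 1 (Yd R y f d) := by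
  have h1 : ContDiff ℝ 1 f := hf.of_le (by norm_num)
  have hx : ContDiff ℝ 1 (dx f) := cd_dx hf (by norm_num)
  have hy : ContDiff ℝ 1 (dy f) := cd_dy hf (by norm_num)
  have hS : ContDiff ℝ 1 fun p => f p ^ 2 + d ^ 2 := (h1.pow 2).add contDiff_const
  have hS0 : ∀ p, f p ^ 2 + d ^ 2 ≠ 0 := fun p => by positivity
  have hz : ContDiff ℝ 1 fun p => zz R d (f p) (g2 f p) :=
    (contDiff_const.mul ((hx.pow 2).add (hy.pow 2))).mul (hS.inv hS0)
  have hw : ContDiff ℝ 1 fun p => ww d (f p) := hS.sqrt hS0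
  have hyz : ContDiff ℝ 1 fun p => y (zz R d (f p) (g2 f p)) :=
    contDiff_iff_contDiffAt.mpr fun p =>
      (cy _ (zz_nonneg R d _ (g2_nonneg f p))).comp p hz.contDiffAt
  exact (hw.mul hyz).sub contDiff_const

lemma fd_Yd {R : ℝ} {y : ℝ → ℝ} (cy : ∀ z, 0 ≤ z → ContDiffAt ℝ 1 y z) {f : P → ℝ}
    (hf : ContDiff ℝ 3 f) {d : ℝ} (hd : 0 < d) (p v : P) :
    fderiv ℝ (Yd R y f d) p v = EE R y d (f p) (g2 f p) (fderiv ℝ f p v)
      (fderiv ℝ (dx f) p v * dx f p + fderiv ℝ (dy f) p v * dy f p) := by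
  have h1 := ((hf.differentiable (by norm_num)) p).hasFDerivAt
  have hx := (((cd_dx (m := 1) hf (by norm_num)).differentiable one_ne_zero) p).hasFDerivAt
  have hy := (((cd_dy (m := 1) hf (by norm_num)).differentiable one_ne_zero) p).hasFDerivAt
  have hS0 : 0 < f p ^ 2 + d ^ 2 := by positivity
  have hS := (h1.pow 2).add_const (d ^ 2)
  have hw := hS.sqrt hS0.ne'
  have hi := (hasDerivAt_inv hS0.ne').comp_hasFDerivAt p hS
  have hG := (hx.pow 2).add (hy.pow 2)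
  have hz := (hG.const_mul (R ^ 2)).mul hi
  have hyd : HasDerivAt y (deriv y (zz R d (f p) (g2 f p))) (zz R d (f p) (g2 f p)) :=
    ((cy _ (zz_nonneg R d _ (g2_nonneg f p))).differentiableAt one_ne_zero).hasDerivAt
  have hyz := hyd.comp_hasFDerivAt p hz
  have hY := (hw.mul hyz).sub_const (d * y 0)
  have e : fderiv ℝ (Yd R y f d) p = _ := hY.fderiv
  rw [e]
  have hw0 := ww_pos hS0
  have hw2 := ww_sq d (f p)
  simp only [add_apply, smul_apply, smul_eq_mul, Function.comp_apply, Pi.add_apply, EE]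
  change ww d (f p) * _ + y (zz R d (f p) (g2 f p)) * (1 / (2 * ww d (f p)) * _) = _
  have hz' : zz R d (f p) (g2 f p) = R ^ 2 * (dx f p ^ 2 + dy f p ^ 2) * (ww d (f p) ^ 2)⁻¹ := by
    rw [hw2]; rfl
  generalize deriv y (zz R d (f p) (g2 f p)) = y1
  generalize y (zz R d (f p) (g2 f p)) = y0
  rw [hz', ← hw2]
  field_simp
  ring

lemma g2_Yd {R l : ℝ} {y : ℝ → ℝ} (cy : ∀ z, 0 ≤ z → ContDiffAt ℝ 1 y z) {f : P → ℝ}
    (hf : ContDiff ℝ 3 f) {d : ℝ} (hd : 0 < d) (p : P) :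
    Ph R l y f d p = R ^ 2 * g2 (Yd R y f d) p - l * max (Yd R y f d p) 0 ^ 2 := by
  have h1 : dx (Yd R y f d) p = _ := fd_Yd cy hf hd p (1, 0)
  have h2 : dy (Yd R y f d) p = _ := fd_Yd cy hf hd p (0, 1)
  have h3 : fderiv ℝ (dy f) p (1, 0) = dy (dx f) p :=
    congrFun (symm_xy (hf.of_le (by norm_num))) p
  rw [g2, h1, h2, h3]
  rfl

lemma Yd_zero {R : ℝ} {y : ℝ → ℝ} {f : P → ℝ} {d : ℝ} (hd : 0 < d) {p : P}
    (hp : p ∉ tsupport f) : Yd R y f d p = 0 := by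
  have h0 : f p = 0 := image_eq_zero_of_notMem_tsupport hp
  have h1 : fderiv ℝ f p = 0 := fderiv_of_notMem_tsupport ℝ hp
  simp [Yd, ww, zz, g2, dx, dy, h0, h1, sqrt_sq hd.le]

lemma int_Ph {R l : ℝ} {y : ℝ → ℝ} (cy : ∀ z, 0 ≤ z → ContDiffAt ℝ 1 y z) (hFK : FK l)
    {f : P → ℝ} (hf : ContDiff ℝ 3 f) (hc : HasCompactSupport f) (hR : 0 < R)
    (hv : volume.real (tsupport f) ≤ π * R ^ 2) {d : ℝ} (hd : 0 < d) :
    Continuous (Ph R l y f d) ∧ Integrable (Ph R l y f d) ∧ 0 ≤ ∫ p, Ph R l y f d p := by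
  have hY := cd_Yd (R := R) cy hf hd
  have hcY : HasCompactSupport (Yd R y f d) :=
    HasCompactSupport.intro hc.isCompact fun p hp => Yd_zero hd hp
  have hm : Continuous fun p => max (Yd R y f d p) 0 ^ 2 :=
    (hY.continuous.max continuous_const).pow 2
  have hcm : HasCompactSupport fun p => max (Yd R y f d p) 0 ^ 2 :=
    HasCompactSupport.intro hc.isCompact fun p hp => by simp [Yd_zero hd hp]
  have im := hm.integrable_of_hasCompactSupport hcm (μ := volume)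
  have ig := int_g2 hY hcY
  have e : Ph R l y f d = fun p => R ^ 2 * g2 (Yd R y f d) p - l * max (Yd R y f d p) 0 ^ 2 :=
    funext fun p => g2_Yd cy hf hd p
  have hmu : mu (Yd R y f d) 0 ≤ π * R ^ 2 := by
    refine le_trans (measureReal_mono (fun p hp => ?_) hc.isCompact.measure_lt_top.ne) hv
    by_contra h
    have : (0 : ℝ) < Yd R y f d p := hp
    rw [Yd_zero hd h] at this
    exact lt_irrefl _ this
  have k := hFK _ hY hcY R hR hmu
  have e2 : ∫ p in U (Yd R y f d) 0, Yd R y f d p ^ 2 = ∫ p, max (Yd R y f d p) 0 ^ 2 := by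
    rw [← integral_indicator (meas_U hY.continuous 0)]
    congr 1
    funext p
    by_cases h : p ∈ U (Yd R y f d) 0
    · rw [indicator_of_mem h, max_eq_left (le_of_lt h)]
    · rw [indicator_of_notMem h, max_eq_right (not_lt.mp h)]
      simp
  rw [e]
  refine ⟨(continuous_const.mul (cont_g2 hY)).sub (continuous_const.mul hm),
    (ig.const_mul _).sub (im.const_mul _), ?_⟩
  rw [integral_sub (ig.const_mul _) (im.const_mul _), integral_const_mul, integral_const_mul, ← e2]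
  linarith

lemma hess_bound {R d u fx fy a b c y1 : ℝ} (hS : 0 < u ^ 2 + d ^ 2)
    (h : 4 * zz R d u (fx ^ 2 + fy ^ 2) * y1 ^ 2 ≤ 1) :
    (2 * R ^ 2 * y1 / ww d u * (a * fx + b * fy)) ^ 2 +
      (2 * R ^ 2 * y1 / ww d u * (b * fx + c * fy)) ^ 2 ≤ R ^ 2 * (a ^ 2 + 2 * b ^ 2 + c ^ 2) := by
  have h1 : (a * fx + b * fy) ^ 2 + (b * fx + c * fy) ^ 2 ≤
      (a ^ 2 + 2 * b ^ 2 + c ^ 2) * (fx ^ 2 + fy ^ 2) := by
    nlinarith [sq_nonneg (a * fy - b * fx), sq_nonneg (b * fy - c * fx)]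
  have h2 : (2 * R ^ 2 * y1 / ww d u) ^ 2 * (fx ^ 2 + fy ^ 2) =
      R ^ 2 * (4 * zz R d u (fx ^ 2 + fy ^ 2) * y1 ^ 2) := by
    rw [div_pow, ww_sq, zz]
    field_simp
    ring
  calc _ = (2 * R ^ 2 * y1 / ww d u) ^ 2 * ((a * fx + b * fy) ^ 2 + (b * fx + c * fy) ^ 2) := by
        ring
    _ ≤ (2 * R ^ 2 * y1 / ww d u) ^ 2 * ((a ^ 2 + 2 * b ^ 2 + c ^ 2) * (fx ^ 2 + fy ^ 2)) :=
        mul_le_mul_of_nonneg_left h1 (sq_nonneg _)
    _ = (a ^ 2 + 2 * b ^ 2 + c ^ 2) * (R ^ 2 * (4 * zz R d u (fx ^ 2 + fy ^ 2) * y1 ^ 2)) := by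
        rw [← h2]; ring
    _ ≤ (a ^ 2 + 2 * b ^ 2 + c ^ 2) * (R ^ 2 * 1) := by gcongr
    _ = _ := by ring

lemma Ph_le {L l : ℝ} {y φ ψ : ℝ → ℝ} (hC : Cal L l y φ ψ) (R : ℝ) (f : P → ℝ) {d : ℝ}
    (hd : 0 < d) {p : P} (hp : f p = 0) : Ph R l y f d p ≤ R ^ 4 * hess2 f p := by
  have hS : 0 < f p ^ 2 + d ^ 2 := by positivity
  have h := hess_bound (a := dx (dx f) p) (b := dy (dx f) p) (c := dy (dy f) p) hS
    (hC.b1 _ (zz_nonneg R d (f p) (g2_nonneg f p)))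
  have h2 : 0 ≤ l * max (Yd R y f d p) 0 ^ 2 := mul_nonneg hC.l0 (sq_nonneg _)
  have h3 := mul_le_mul_of_nonneg_left h (sq_nonneg R)
  have e : f p / ww d (f p) = 0 := by rw [hp, zero_div]
  simp only [Ph, EE, e, mul_zero, zero_mul, zero_add, hess2, g2] at h3 ⊢
  nlinarith

lemma Ph_abs {L l : ℝ} {y φ ψ : ℝ → ℝ} (hC : Cal L l y φ ψ) {K : ℝ}
    (hK : ∀ z, 0 ≤ z → |y z - 2 * z * deriv y z| ≤ K) (R : ℝ) (f : P → ℝ) {d : ℝ}
    (hd : 0 < d) (hd1 : d ≤ 1) (p : P) :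
    |Ph R l y f d p| ≤ R ^ 2 * (2 * K ^ 2 * g2 f p + 2 * R ^ 2 * hess2 f p) +
      l * (2 * K ^ 2 * (f p ^ 2 + 1) + 2 * R ^ 2 * g2 f p) := by
  have hS : 0 < f p ^ 2 + d ^ 2 := by positivity
  have hz := zz_nonneg R d (f p) (g2_nonneg f p)
  have hb := hC.b1 _ hz
  have h := hess_bound (a := dx (dx f) p) (b := dy (dx f) p) (c := dy (dy f) p) hS hb
  have hw := ww_pos hS
  have hw2 := ww_sq d (f p)
  have hK2 := sq_le_sq' (abs_le.mp (hK _ hz)).1 (abs_le.mp (hK _ hz)).2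
  have hyz := hC.ypos _ hz
  have hy0 := hC.ypos 0 le_rfl
  have hG := g2_nonneg f p
  have hwz : ww d (f p) ^ 2 * zz R d (f p) (g2 f p) = R ^ 2 * g2 f p := by
    rw [hw2, zz]; field_simp
  have hq : (f p / ww d (f p)) ^ 2 ≤ 1 := by
    rw [div_pow, div_le_one (by positivity), hw2]
    nlinarith
  have m1 : max (Yd R y f d p) 0 ^ 2 ≤ 2 * K ^ 2 * (f p ^ 2 + 1) + 2 * R ^ 2 * g2 f p := by
    have a1 : max (Yd R y f d p) 0 ≤ ww d (f p) * y (zz R d (f p) (g2 f p)) :=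
      max_le (by unfold Yd; nlinarith) (by positivity)
    have a2 := pow_le_pow_left₀ (le_max_right _ _) a1 2
    refine a2.trans ?_
    generalize zz R d (f p) (g2 f p) = z at *
    have a3 : y z ^ 2 ≤ 2 * K ^ 2 + 2 * z := by
      have : (2 * z * deriv y z) ^ 2 ≤ z := by nlinarith
      nlinarith [sq_nonneg (y z - 4 * z * deriv y z)]
    have a4 : ww d (f p) ^ 2 ≤ f p ^ 2 + 1 := by nlinarith
    calc (ww d (f p) * y z) ^ 2 = ww d (f p) ^ 2 * y z ^ 2 := by ring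
      _ ≤ ww d (f p) ^ 2 * (2 * K ^ 2 + 2 * z) := by gcongr
      _ = 2 * K ^ 2 * ww d (f p) ^ 2 + 2 * (ww d (f p) ^ 2 * z) := by ring
      _ ≤ 2 * K ^ 2 * (f p ^ 2 + 1) + 2 * (R ^ 2 * g2 f p) := by rw [hwz]; gcongr
      _ = _ := by ring
  have m2 : EE R y d (f p) (g2 f p) (dx f p) (dx (dx f) p * dx f p + dy (dx f) p * dy f p) ^ 2 +
      EE R y d (f p) (g2 f p) (dy f p) (dy (dx f) p * dx f p + dy (dy f) p * dy f p) ^ 2 ≤
      2 * K ^ 2 * g2 f p + 2 * R ^ 2 * hess2 f p := by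
    unfold EE
    have b1 : ((y (zz R d (f p) (g2 f p)) - 2 * zz R d (f p) (g2 f p) *
        deriv y (zz R d (f p) (g2 f p))) * (f p / ww d (f p))) ^ 2 ≤ K ^ 2 := by
      rw [mul_pow]
      exact (mul_le_of_le_one_right (sq_nonneg _) hq).trans hK2
    change _ ≤ R ^ 2 * hess2 f p at h
    generalize (y (zz R d (f p) (g2 f p)) - 2 * zz R d (f p) (g2 f p) *
        deriv y (zz R d (f p) (g2 f p))) * (f p / ww d (f p)) = α at *
    have h' : (2 * R ^ 2 * deriv y (zz R d (f p) (g2 f p)) / ww d (f p) *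
        (dx (dx f) p * dx f p + dy (dx f) p * dy f p)) ^ 2 +
        (2 * R ^ 2 * deriv y (zz R d (f p) (g2 f p)) / ww d (f p) *
        (dy (dx f) p * dx f p + dy (dy f) p * dy f p)) ^ 2 ≤ R ^ 2 * hess2 f p := h
    generalize 2 * R ^ 2 * deriv y (zz R d (f p) (g2 f p)) / ww d (f p) *
        (dx (dx f) p * dx f p + dy (dx f) p * dy f p) = β at *
    generalize 2 * R ^ 2 * deriv y (zz R d (f p) (g2 f p)) / ww d (f p) *
        (dy (dx f) p * dx f p + dy (dy f) p * dy f p) = γ at *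
    have b2 : α ^ 2 * g2 f p ≤ K ^ 2 * g2 f p := by gcongr
    unfold g2 at b2 ⊢
    nlinarith [sq_nonneg (α * dx f p - β), sq_nonneg (α * dy f p - γ)]
  have m3 := mul_le_mul_of_nonneg_left m1 hC.l0
  have m4 := mul_le_mul_of_nonneg_left m2 (sq_nonneg R)
  have m5 : 0 ≤ l * max (Yd R y f d p) 0 ^ 2 := mul_nonneg hC.l0 (sq_nonneg _)
  unfold Ph
  rw [abs_le]
  constructor
  · linarith [mul_nonneg (sq_nonneg R) (add_nonneg
      (sq_nonneg (EE R y d (f p) (g2 f p) (dx f p) (dx (dx f) p * dx f p + dy (dx f) p * dy f p)))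
      (sq_nonneg (EE R y d (f p) (g2 f p) (dy f p) (dy (dx f) p * dx f p + dy (dy f) p * dy f p))))]
  · linarith

lemma Ph_cont {l : ℝ} {y : ℝ → ℝ} (cy : ∀ z, 0 ≤ z → ContDiffAt ℝ 1 y z) (R : ℝ) (f : P → ℝ)
    {p : P} (hp : f p ≠ 0) : ContinuousAt (fun d => Ph R l y f d p) 0 := by
  have hS : 0 < f p ^ 2 + (0 : ℝ) ^ 2 := by positivity
  have hw : ContinuousAt (fun d => ww d (f p)) 0 := by unfold ww; fun_prop
  have hz : ContinuousAt (fun d => zz R d (f p) (g2 f p)) 0 :=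
    continuousAt_const.mul (ContinuousAt.inv₀ (by fun_prop) hS.ne')
  have hy := cy _ (zz_nonneg R 0 (f p) (g2_nonneg f p))
  have hy0 : ContinuousAt (fun d => y (zz R d (f p) (g2 f p))) 0 :=
    ContinuousAt.comp (f := fun d => zz R d (f p) (g2 f p)) hy.continuousAt hz
  have hd : ContinuousAt (deriv y) (zz R 0 (f p) (g2 f p)) :=
    (hy.continuousAt_fderiv one_ne_zero).clm_apply continuousAt_const
  have hy1 : ContinuousAt (fun d => deriv y (zz R d (f p) (g2 f p))) 0 :=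
    ContinuousAt.comp (f := fun d => zz R d (f p) (g2 f p)) hd hz
  have hE : ∀ e h : ℝ, ContinuousAt (fun d => EE R y d (f p) (g2 f p) e h) 0 := fun e h =>
    (((hy0.sub ((continuousAt_const.mul hz).mul hy1)).mul
      (continuousAt_const.div hw (ww_pos hS).ne')).mul continuousAt_const).add
      (((continuousAt_const.mul hy1).div hw (ww_pos hS).ne').mul continuousAt_const)
  exact (continuousAt_const.mul (((hE _ _).pow 2).add ((hE _ _).pow 2))).sub
    (continuousAt_const.mul ((((hw.mul hy0).sub (continuousAt_id.mul continuousAt_const)).max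
      continuousAt_const).pow 2))

lemma Ph_zero {L l : ℝ} {y φ ψ : ℝ → ℝ} (hC : Cal L l y φ ψ) (R : ℝ) (f : P → ℝ)
    {p : P} (hp : f p ≠ 0) : Ph R l y f 0 p = Psi R l y f p := by
  have hS : 0 < f p ^ 2 + (0 : ℝ) ^ 2 := by positivity
  have hw := ww_pos hS
  have hw2 : ww 0 (f p) ^ 2 = f p ^ 2 := by rw [ww_sq]; ring
  have hz : zz R 0 (f p) (g2 f p) = zf R f p := by simp [zz, zf, div_eq_mul_inv]
  have hy := hC.ypos _ (zz_nonneg R 0 (f p) (g2_nonneg f p))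
  have hE : ∀ e h : ℝ, EE R y 0 (f p) (g2 f p) e h ^ 2 =
      ((y (zf R f p) - 2 * zf R f p * deriv y (zf R f p)) * e +
        2 * R ^ 2 * deriv y (zf R f p) / f p * h) ^ 2 := by
    intro e h
    have : EE R y 0 (f p) (g2 f p) e h = f p / ww 0 (f p) *
        ((y (zf R f p) - 2 * zf R f p * deriv y (zf R f p)) * e +
        2 * R ^ 2 * deriv y (zf R f p) / f p * h) := by
      rw [EE, hz]
      field_simp
    rw [this, mul_pow, div_pow, hw2, div_self (pow_ne_zero 2 hp), one_mul]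
  rw [Ph, Psi, if_neg hp, hE, hE, Yd, zero_mul, sub_zero, max_eq_left (by positivity), hz, mul_pow,
    mul_pow, hw2]
  rfl

theorem psi : PsiStmt := by
  classical
  intro L l y φ ψ hC hFK f hf hc R hR hv
  obtain ⟨K, hK⟩ := hC.bd
  have h1 : ContDiff ℝ 1 f := hf.of_le (by norm_num)
  have hx : ContDiff ℝ 2 (dx f) := cd_dx hf (by norm_num)
  have hy : ContDiff ℝ 2 (dy f) := cd_dy hf (by norm_num)
  have cxx := cont_dx (hx.of_le (m := 1) (by norm_num))
  have cxy := cont_dy (hx.of_le (m := 1) (by norm_num))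
  have cyy := cont_dy (hy.of_le (m := 1) (by norm_num))
  have cH : Continuous (hess2 f) :=
    ((cxx.pow 2).add (continuous_const.mul (cxy.pow 2))).add (cyy.pow 2)
  have iH : Integrable (hess2 f) := by
    have a1 := imul cxx cxx (cs_dx (cs_dx hc))
    have a2 := imul cxy cxy (cs_dy (cs_dx hc))
    have a3 := imul cyy cyy (cs_dy (cs_dy hc))
    refine ((a1.add (a2.const_mul 2)).add a3).congr (Eventually.of_forall fun p => ?_)
    simp only [hess2, Pi.add_apply]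
    ring
  have H0 : ∀ p, 0 ≤ R ^ 4 * hess2 f p := fun p => by unfold hess2; positivity
  let C : P → ℝ := fun p => R ^ 2 * (2 * K ^ 2 * g2 f p + 2 * R ^ 2 * hess2 f p) +
      l * (2 * K ^ 2 * (f p ^ 2 + 1) + 2 * R ^ 2 * g2 f p)
  have cC : Continuous C := by
    have := cont_g2 h1
    have := hf.continuous
    fun_prop
  have C0 : ∀ p, 0 ≤ (tsupport f).indicator C p := fun p => indicator_nonneg (fun q _ =>
    (abs_nonneg _).trans (Ph_abs hC (fun z hz => (hK z hz).2.2) R f one_pos le_rfl q)) p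
  have iB : Integrable fun p => R ^ 4 * hess2 f p + (tsupport f).indicator C p :=
    (iH.const_mul _).add ((integrable_indicator_iff (isClosed_tsupport f).measurableSet).mpr
      (cC.continuousOn.integrableOn_compact hc.isCompact))
  let D : ℕ → ℝ := fun n => 1 / ((n : ℝ) + 1)
  have D0 : ∀ n, 0 < D n := fun n => Nat.one_div_pos_of_nat
  have D1 : ∀ n, D n ≤ 1 := fun n => by
    rw [div_le_one (by positivity)]
    linarith [Nat.cast_nonneg (α := ℝ) n]
  let Fn : ℕ → P → ℝ := fun n p => if f p = 0 then R ^ 4 * hess2 f p else Ph R l y f (D n) p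
  have mF : ∀ n, AEStronglyMeasurable (Fn n) volume := fun n =>
    (Measurable.ite (measurableSet_eq_fun hf.continuous.measurable measurable_const)
      (continuous_const.mul cH).measurable
      (int_Ph hC.cy hFK hf hc hR hv (D0 n)).1.measurable).aestronglyMeasurable
  have bF : ∀ n p, ‖Fn n p‖ ≤ R ^ 4 * hess2 f p + (tsupport f).indicator C p := by
    intro n p
    by_cases hp : f p = 0
    · simp only [Fn, if_pos hp, norm_eq_abs, abs_of_nonneg (H0 p)]
      linarith [C0 p]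
    · simp only [Fn, if_neg hp, norm_eq_abs]
      rw [indicator_of_mem (subset_tsupport f hp)]
      linarith [Ph_abs hC (fun z hz => (hK z hz).2.2) R f (D0 n) (D1 n) p, H0 p]
  have lF : ∀ p, Tendsto (fun n => Fn n p) atTop (𝓝 (Psi R l y f p)) := by
    intro p
    by_cases hp : f p = 0
    · simp only [Fn, Psi, if_pos hp]
      exact tendsto_const_nhds
    · simp only [Fn, if_neg hp]
      rw [← Ph_zero hC R f hp]
      exact (Ph_cont hC.cy R f hp).tendsto.comp tendsto_one_div_add_atTop_nhds_zero_nat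
  refine ⟨iB.mono' (aestronglyMeasurable_of_tendsto_ae atTop mF (Eventually.of_forall lF))
    (Eventually.of_forall fun p => le_of_tendsto' (lF p).norm fun n => bF n p), ?_⟩
  refine ge_of_tendsto' (tendsto_integral_of_dominated_convergence _ mF iB
    (fun n => Eventually.of_forall (bF n)) (Eventually.of_forall lF)) fun n => ?_
  obtain ⟨-, i1, i2⟩ := int_Ph hC.cy hFK hf hc hR hv (D0 n)
  refine i2.trans (integral_mono i1 (iB.mono' (mF n) (Eventually.of_forall (bF n))) fun p => ?_)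
  by_cases hp : f p = 0
  · simp only [Fn, if_pos hp]
    exact Ph_le hC R f (D0 n) hp
  · simp only [Fn, if_neg hp, le_refl]

end Pool.Agent.MP_3d716e_an.H71
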